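import Mathlib

set_option autoImplicit false

open Set Topology

namespace Helper648.PC

/-- On a finite acyclic graph every antisymmetric edge weight has a potential. -/
theorem potential {V : Type*} [Finite V] (a : V → V → ℂ) :
    ∀ (n : ℕ) (G : SimpleGraph V), G.IsAcyclic → G.edgeSet.ncard = n →
      (∀ i j, G.Adj i j → a i j = - a j i) →
      ∃ c : V → ℂ, ∀ i j, G.Adj i j → c i - c j = a i j := by
  classical
  intro n
  induction n with
  | zero =>
    intro G _ hn _
    refine ⟨fun _ => 0, fun i j hij => ?_⟩
    have hfin : G.edgeSet.Finite := Set.toFinite _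
    rw [Set.ncard_eq_zero hfin] at hn
    have : s(i, j) ∈ G.edgeSet := hij
    rw [hn] at this
    exact absurd this (Set.notMem_empty _)
  | succ n ih =>
    intro G hG hn ha
    have hne : G.edgeSet.Nonempty := by
      rw [← Set.ncard_pos (Set.toFinite _)]
      omega
    obtain ⟨e, he⟩ := hne
    induction e using Sym2.ind with
    | _ u v =>
      have hadj : G.Adj u v := he
      have hle : G.deleteEdges {s(u, v)} ≤ G := G.deleteEdges_le _
      have hac : (G.deleteEdges {s(u, v)}).IsAcyclic := hG.anti hle
      have hcard : (G.deleteEdges {s(u, v)}).edgeSet.ncard = n := by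
        rw [SimpleGraph.edgeSet_deleteEdges]
        rw [Set.ncard_sdiff_singleton_of_mem he]
        omega
      obtain ⟨c, hc⟩ := ih _ hac hcard (fun i j hij => ha i j (hle hij))
      have hbr : ¬ (G.deleteEdges {s(u, v)}).Reachable u v := by
        have := (SimpleGraph.isAcyclic_iff_forall_isBridge.1 hG) he
        rwa [SimpleGraph.isBridge_iff] at this
      set G' := G.deleteEdges {s(u, v)} with hG'
      refine ⟨fun w => c w + if G'.Reachable v w then (c u - c v - a u v) else 0, ?_⟩
      intro i j hij
      by_cases hS : s(i, j) = s(u, v)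
      · rw [Sym2.eq_iff] at hS
        have hvu : ¬ G'.Reachable v u := fun h => hbr h.symm
        rcases hS with ⟨rfl, rfl⟩ | ⟨rfl, rfl⟩
        · have h1 : G'.Reachable j j := SimpleGraph.Reachable.refl _
          simp only [hvu, h1, if_true, if_false]
          ring
        · have h1 : G'.Reachable i i := SimpleGraph.Reachable.refl _
          simp only [hvu, h1, if_true, if_false]
          rw [ha i j hij]
          ring
      · have hadj' : G'.Adj i j := by
          rw [hG', SimpleGraph.deleteEdges_adj]
          exact ⟨hij, by simpa using hS⟩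
        have hiff : G'.Reachable v i ↔ G'.Reachable v j :=
          ⟨fun h => h.trans hadj'.reachable, fun h => h.trans hadj'.symm.reachable⟩
        have := hc i j hadj'
        by_cases hr : G'.Reachable v i
        · have hr' := hiff.1 hr
          simp only [hr, hr', if_true]
          rw [← this]; ring
        · have hr' : ¬ G'.Reachable v j := fun h => hr (hiff.2 h)
          simp only [hr, hr', if_false]
          rw [← this]; ring

/-- Every continuous map to the nonzero complex numbers has a continuous logarithm. -/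
def HasLog (X : Type*) [TopologicalSpace X] : Prop :=
  ∀ g : X → ℂ, Continuous g → (∀ x, g x ≠ 0) → ∃ h : X → ℂ, Continuous h ∧
    ∀ x, Complex.exp (h x) = g x

/-- a continuous function on a connected set all of whose exponentials are `1` is constant -/
theorem eq_of_exp_eq_one {X : Type*} [TopologicalSpace X] {s : Set X} (hs : IsPreconnected s)
    {d : X → ℂ} (hd : ContinuousOn d s) (h1 : ∀ x ∈ s, Complex.exp (d x) = 1) :
    ∀ x ∈ s, ∀ y ∈ s, d x = d y := by
  intro x hx y hy
  have hpi : (0 : ℝ) < 2 * Real.pi := by positivity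
  -- imaginary part divided by 2π is an integer, real part zero
  have hre : ∀ z ∈ s, (d z).re = 0 := by
    intro z hz
    have := h1 z hz
    have h2 : ‖Complex.exp (d z)‖ = 1 := by rw [this]; simp
    rw [Complex.norm_exp] at h2
    simpa using h2
  have hint : ∀ z ∈ s, ∃ n : ℤ, (d z).im = n * (2 * Real.pi) := by
    intro z hz
    obtain ⟨n, hn⟩ := Complex.exp_eq_one_iff.1 (h1 z hz)
    refine ⟨n, ?_⟩
    rw [hn]
    simp
  have him : (d x).im = (d y).im := by
    by_contra hne
    obtain ⟨n, hn⟩ := hint x hx
    obtain ⟨m, hm⟩ := hint y hy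
    -- choose a non-multiple in between
    have hcont : ContinuousOn (fun z => (d z).im) s := Complex.continuous_im.comp_continuousOn hd
    have key : ∀ n m : ℤ, n < m → ∀ x ∈ s, ∀ y ∈ s, (d x).im = n * (2 * Real.pi) →
        (d y).im = m * (2 * Real.pi) → False := by
      intro n m hnm x hx y hy hn hm
      have hmem : ((n : ℝ) + 1 / 2) * (2 * Real.pi) ∈ Icc ((d x).im) ((d y).im) := by
        have hnm' : (n : ℝ) + 1 ≤ m := by exact_mod_cast hnm
        rw [hn, hm]
        constructor <;> nlinarith
      obtain ⟨z, hz, hz2⟩ := hs.intermediate_value hx hy hcont hmem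
      obtain ⟨k, hk⟩ := hint z hz
      simp only at hz2
      rw [hk] at hz2
      have h3 : (k : ℝ) = n + 1 / 2 := by
        exact mul_right_cancel₀ hpi.ne' hz2
      have h4 : (2 * k : ℝ) = 2 * n + 1 := by linarith
      have h5 : 2 * k = 2 * n + 1 := by exact_mod_cast h4
      omega
    rcases lt_trichotomy n m with h | h | h
    · exact key n m h x hx y hy hn hm
    · apply hne
      rw [hn, hm, h]
    · exact key m n h y hy x hx hm hn
  apply Complex.ext
  · rw [hre x hx, hre y hy]
  · exact him

/-- A connected space covered by finitely many open sets with acyclic nerve, each so small that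
every non-vanishing function `g` has a logarithm on it, has global logarithm -/
theorem exists_log_of_cover {X : Type*} [TopologicalSpace X] [PreconnectedSpace X]
    (g : X → ℂ) (hg : Continuous g) (hg0 : ∀ x, g x ≠ 0)
    {n : ℕ} (U : Fin n → Set X) (hU : ∀ i, IsOpen (U i)) (hcov : ∀ x, ∃ i, x ∈ U i)
    (hsmall : ∀ i, ∀ x ∈ U i, ∀ y ∈ U i, ‖g x / g y - 1‖ < 1 / 2)
    (hac : (SimpleGraph.fromRel (fun i j => (U i ∩ U j).Nonempty)).IsAcyclic) :
    ∃ h : X → ℂ, Continuous h ∧ ∀ x, Complex.exp (h x) = g x := by
  classical
  by_cases hX : Nonempty X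
  swap
  · refine ⟨fun _ => 0, continuous_const, fun x => (hX ⟨x⟩).elim⟩
  obtain ⟨x₀⟩ := hX
  -- base points
  let p : Fin n → X := fun i => if h : (U i).Nonempty then h.some else x₀
  have hp : ∀ i x, x ∈ U i → p i ∈ U i := by
    intro i x hx
    have h : (U i).Nonempty := ⟨x, hx⟩
    simp only [p, h, dif_pos]
    exact h.some_mem
  let l : Fin n → X → ℂ := fun i x => Complex.log (g x / g (p i))
  have hnear : ∀ z : ℂ, ‖z - 1‖ < 1 / 2 → z ∈ Complex.slitPlane ∧ |Complex.arg z| < Real.pi / 2 := by
    intro z hz
    have hre : 0 < z.re := by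
      have h1 : |(z - 1).re| ≤ ‖z - 1‖ := Complex.abs_re_le_norm _
      have h2 : (z - 1).re = z.re - 1 := by simp
      rw [h2] at h1
      have := (abs_le.1 h1).1
      linarith
    refine ⟨Or.inl hre, ?_⟩
    exact Complex.abs_arg_lt_pi_div_two_iff.2 (Or.inl hre)
  have hlc : ∀ i, ContinuousOn (l i) (U i) := by
    intro i
    apply ContinuousOn.clog
    · exact (hg.div_const _).continuousOn
    · intro x hx
      exact (hnear _ (hsmall i x hx (p i) (hp i x hx))).1
  have hlexp : ∀ i, ∀ x, Complex.exp (l i x) = g x / g (p i) := by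
    intro i x
    exact Complex.exp_log (div_ne_zero (hg0 _) (hg0 _))
  -- the difference on overlaps
  have hover : ∀ i j, ∀ x ∈ U i ∩ U j, ∀ y ∈ U i ∩ U j, l i x - l j x = l i y - l j y := by
    intro i j x hx y hy
    have hexp : Complex.exp (l i x - l j x) = Complex.exp (l i y - l j y) := by
      rw [Complex.exp_sub, Complex.exp_sub, hlexp, hlexp, hlexp, hlexp]
      have h1 := hg0 x
      have h2 := hg0 y
      have h3 := hg0 (p i)
      have h4 := hg0 (p j)
      field_simp
    rw [Complex.exp_eq_exp_iff_exists_int] at hexp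
    obtain ⟨k, hk⟩ := hexp
    have him := congrArg Complex.im hk
    have e1 : ∀ i, ∀ x ∈ U i, |(l i x).im| < Real.pi / 2 := by
      intro i x hx
      simp only [l, Complex.log_im]
      exact (hnear _ (hsmall i x hx (p i) (hp i x hx))).2
    have a1 := abs_lt.1 (e1 i x hx.1)
    have a2 := abs_lt.1 (e1 j x hx.2)
    have a3 := abs_lt.1 (e1 i y hy.1)
    have a4 := abs_lt.1 (e1 j y hy.2)
    have him2 : (l i x).im - (l j x).im = (l i y).im - (l j y).im + k * (2 * Real.pi) := by
      simpa using him
    have hpi := Real.pi_pos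
    have hk0 : k = 0 := by
      have hlt : (k : ℝ) * (2 * Real.pi) < 1 * (2 * Real.pi) := by linarith
      have hgt : (-1 : ℝ) * (2 * Real.pi) < (k : ℝ) * (2 * Real.pi) := by linarith
      have h1 : (k : ℝ) < 1 := lt_of_mul_lt_mul_right hlt (by positivity)
      have h2 : (-1 : ℝ) < k := lt_of_mul_lt_mul_right hgt (by positivity)
      have h3 : k < 1 := by exact_mod_cast h1
      have h4 : -1 < k := by exact_mod_cast h2
      omega
    rw [hk, hk0]
    simp
  let a : Fin n → Fin n → ℂ := fun i j =>
    if h : (U i ∩ U j).Nonempty then l j h.some - l i h.some else 0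
  have ha : ∀ i j, ∀ x ∈ U i ∩ U j, a i j = l j x - l i x := by
    intro i j x hx
    have h : (U i ∩ U j).Nonempty := ⟨x, hx⟩
    simp only [a, h, dif_pos]
    have := hover i j x hx h.some h.some_mem
    linear_combination this
  have hanti : ∀ i j, (SimpleGraph.fromRel (fun i j => (U i ∩ U j).Nonempty)).Adj i j →
      a i j = - a j i := by
    intro i j hij
    have hne : (U i ∩ U j).Nonempty := by
      rw [SimpleGraph.fromRel_adj] at hij
      rcases hij.2 with h | h
      · exact h
      · rwa [inter_comm] at h
    obtain ⟨x, hx⟩ := hne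
    rw [ha i j x hx, ha j i x ⟨hx.2, hx.1⟩]
    ring
  obtain ⟨c, hc⟩ := potential a _ _ hac rfl hanti
  have hcons : ∀ i j, ∀ x ∈ U i ∩ U j, l i x + c i = l j x + c j := by
    intro i j x hx
    by_cases hij : i = j
    · rw [hij]
    · have hadj : (SimpleGraph.fromRel (fun i j => (U i ∩ U j).Nonempty)).Adj i j := by
        rw [SimpleGraph.fromRel_adj]
        exact ⟨hij, Or.inl ⟨x, hx⟩⟩
      have h1 := hc i j hadj
      rw [ha i j x hx] at h1
      linear_combination h1
  choose idx hidx using hcov
  let h : X → ℂ := fun x => l (idx x) x + c (idx x)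
  have hh : ∀ i, ∀ x ∈ U i, h x = l i x + c i := by
    intro i x hx
    exact hcons _ _ x ⟨hidx x, hx⟩
  have hcont : Continuous h := by
    rw [continuous_iff_continuousAt]
    intro x
    have hmem : U (idx x) ∈ 𝓝 x := (hU _).mem_nhds (hidx x)
    have h1 : ContinuousAt (fun y => l (idx x) y + c (idx x)) x :=
      ((hlc (idx x)).continuousAt hmem).add continuousAt_const
    refine h1.congr ?_
    filter_upwards [hmem] with y hy
    exact (hh _ y hy).symm
  -- exp h / g is locally constant
  have hloc : IsLocallyConstant (fun x => Complex.exp (h x) / g x) := by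
    rw [IsLocallyConstant.iff_eventually_eq]
    intro x
    have hmem : U (idx x) ∈ 𝓝 x := (hU _).mem_nhds (hidx x)
    filter_upwards [hmem] with y hy
    rw [hh _ y hy, hh _ x (hidx x), Complex.exp_add, Complex.exp_add, hlexp, hlexp]
    have h1 := hg0 x
    have h2 := hg0 y
    have h3 := hg0 (p (idx x))
    field_simp
  have hconst : ∀ x, Complex.exp (h x) / g x = Complex.exp (h x₀) / g x₀ := fun x =>
    hloc.apply_eq_of_isPreconnected isPreconnected_univ (mem_univ _) (mem_univ _)
  set k := Complex.exp (h x₀) / g x₀ with hk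
  have hk0 : k ≠ 0 := div_ne_zero (Complex.exp_ne_zero _) (hg0 _)
  refine ⟨fun x => h x - Complex.log k, hcont.sub continuous_const, fun x => ?_⟩
  rw [Complex.exp_sub, Complex.exp_log hk0]
  have := hconst x
  have h1 := hg0 x
  rw [div_eq_iff h1] at this
  rw [this]
  field_simp

end Helper648.PC
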