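import Mathlib
import Pool.Agent.Helper648.PC.Lift

set_option autoImplicit false

open Set Topology

namespace Helper648.PC

/-- Products of compact connected spaces with logarithms have logarithms. -/
theorem HasLog.prod {X Y : Type*} [TopologicalSpace X] [TopologicalSpace Y]
    [CompactSpace Y] [PreconnectedSpace Y]
    (hX : HasLog X) (hY : HasLog Y) : HasLog (X × Y) := by
  intro g hg hg0
  by_cases hYn : Nonempty Y
  swap
  · refine ⟨fun _ => 0, continuous_const, fun x => (hYn ⟨x.2⟩).elim⟩
  obtain ⟨y₀⟩ := hYn
  -- fibrewise logarithms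
  have hfib : ∀ x, ∃ h : Y → ℂ, Continuous h ∧ h y₀ = 0 ∧
      ∀ y, Complex.exp (h y) = g (x, y) / g (x, y₀) := by
    intro x
    obtain ⟨h, hc, he⟩ := hY (fun y => g (x, y) / g (x, y₀))
      ((hg.comp (by fun_prop)).div_const _) (fun y => div_ne_zero (hg0 _) (hg0 _))
    refine ⟨fun y => h y - h y₀, hc.sub continuous_const, by simp, fun y => ?_⟩
    rw [Complex.exp_sub, he, he]
    have := hg0 (x, y₀)
    field_simp
  choose H hHc hH0 hHe using hfib
  obtain ⟨b, hbc, hbe⟩ := hX (fun x => g (x, y₀)) (hg.comp (by fun_prop)) (fun x => hg0 _)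
  refine ⟨fun q => b q.1 + H q.1 q.2, ?_, ?_⟩
  · apply (hbc.comp continuous_fst).add
    rw [continuous_iff_continuousAt]
    rintro ⟨x', y'⟩
    -- comparison function
    let Q : X × Y → ℂ := fun q =>
      (g (q.1, q.2) / g (q.1, y₀)) / (g (x', q.2) / g (x', y₀))
    have hQc : Continuous Q := by
      apply Continuous.div
      · apply Continuous.div (hg.comp (by fun_prop)) (hg.comp (by fun_prop))
        intro q; exact hg0 _
      · exact (hg.comp (by fun_prop)).div_const _
      · intro q; exact div_ne_zero (hg0 _) (hg0 _)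
    have hQ1 : ∀ y, Q (x', y) = 1 := by
      intro y
      simp only [Q]
      exact div_self (div_ne_zero (hg0 _) (hg0 _))
    have hopen : IsOpen {q : X × Y | ‖Q q - 1‖ < 1 / 2} :=
      isOpen_lt (by fun_prop) continuous_const
    have htube : ∃ N ∈ 𝓝 x', ∀ x ∈ N, ∀ y, ‖Q (x, y) - 1‖ < 1 / 2 := by
      obtain ⟨u, v, hu, _, hxu, hyv, huv⟩ :=
        generalized_tube_lemma (isCompact_singleton (x := x')) (isCompact_univ (X := Y)) hopen (by
          rintro ⟨x, y⟩ ⟨hx, _⟩
          simp only [mem_singleton_iff] at hx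
          subst hx
          show ‖Q (x, y) - 1‖ < 1 / 2
          rw [hQ1]; norm_num)
      refine ⟨u, hu.mem_nhds (hxu rfl), fun x hx y => ?_⟩
      exact huv (show (x, y) ∈ u ×ˢ v from ⟨hx, hyv (mem_univ _)⟩)
    obtain ⟨N, hN, hNq⟩ := htube
    have hslit : ∀ z : ℂ, ‖z - 1‖ < 1 / 2 → z ∈ Complex.slitPlane := by
      intro z hz
      have h1 : |(z - 1).re| ≤ ‖z - 1‖ := Complex.abs_re_le_norm _
      have h2 : (z - 1).re = z.re - 1 := by simp
      rw [h2] at h1
      have := (abs_le.1 h1).1
      left
      linarith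
    have hQ0 : ∀ q, Q q ≠ 0 := fun q =>
      div_ne_zero (div_ne_zero (hg0 _) (hg0 _)) (div_ne_zero (hg0 _) (hg0 _))
    have hkey : ∀ x ∈ N, ∀ y, H x y = H x' y + Complex.log (Q (x, y)) := by
      intro x hx y
      have hcont : ContinuousOn (fun y => H x y - H x' y - Complex.log (Q (x, y))) univ := by
        apply ContinuousOn.sub
        · exact ((hHc x).sub (hHc x')).continuousOn
        · apply ContinuousOn.clog
          · exact (hQc.comp (by fun_prop)).continuousOn
          · intro y _
            exact hslit _ (hNq x hx y)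
      have hexp1 : ∀ y ∈ (univ : Set Y),
          Complex.exp (H x y - H x' y - Complex.log (Q (x, y))) = 1 := by
        intro y _
        rw [Complex.exp_sub, Complex.exp_sub, Complex.exp_log (hQ0 _), hHe, hHe]
        exact div_self (hQ0 (x, y))
      have := eq_of_exp_eq_one isPreconnected_univ hcont hexp1 y (mem_univ _) y₀ (mem_univ _)
      have hQy0 : Q (x, y₀) = 1 := by
        simp only [Q]
        rw [div_self (hg0 _), div_self (hg0 _), div_one]
      simp only [hQy0, Complex.log_one, hH0, sub_zero] at this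
      linear_combination this
    have hNm : {q : X × Y | q.1 ∈ N} ∈ 𝓝 (x', y') :=
      continuousAt_fst.preimage_mem_nhds hN
    have hca : ContinuousAt (fun q : X × Y => H x' q.2 + Complex.log (Q (q.1, q.2))) (x', y') := by
      apply ContinuousAt.add
      · exact ((hHc x').comp continuous_snd).continuousAt
      · apply ContinuousAt.clog
        · exact (hQc.comp (by fun_prop)).continuousAt
        · rw [hQ1]; exact Complex.one_mem_slitPlane
    refine hca.congr ?_
    filter_upwards [hNm] with q hq
    exact (hkey q.1 hq q.2).symm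
  · rintro ⟨x, y⟩
    simp only
    rw [Complex.exp_add, hbe, hHe]
    have := hg0 (x, y₀)
    field_simp

end Helper648.PC
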