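import Mathlib
import Pool.Agent.Helper648.PC.Prod

set_option autoImplicit false

open Set Topology

namespace Helper648.PC

/-- if `e₀` is a uniform limit of maps with images disjoint from the image of `e₀`, then off any
neighbourhood of the diagonal the ordered pairs split into two closed classes exchanged by the
swap -/
theorem splitting {X : Type*} [TopologicalSpace X] [CompactSpace X] [PreconnectedSpace X]
    (hlog : HasLog X) (e₀ : X → ℂ) (he₀ : Continuous e₀)
    (happ : ∀ δ : ℝ, 0 < δ → ∃ e : X → ℂ, Continuous e ∧ (∀ x y, e x ≠ e₀ y) ∧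
      ∀ x, ‖e x - e₀ x‖ < δ)
    (P : Set (X × X)) (hP : IsCompact P) (hPne : ∀ p ∈ P, e₀ p.1 ≠ e₀ p.2) :
    ∃ D : X × X → ℝ, Continuous D ∧ (∀ p, D p.swap = - D p) ∧ ∀ p ∈ P, D p ≠ 0 := by
  by_cases hne : P.Nonempty
  swap
  · refine ⟨fun _ => 0, continuous_const, by simp, fun p hp => (hne ⟨p, hp⟩).elim⟩
  obtain ⟨q, hq, hqmin⟩ := hP.exists_isMinOn hne
    (f := fun p : X × X => ‖e₀ p.1 - e₀ p.2‖) (by fun_prop)
  set m := ‖e₀ q.1 - e₀ q.2‖ with hm
  have hm0 : 0 < m := norm_pos_iff.2 (sub_ne_zero.2 (hPne q hq))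
  have hmin : ∀ p ∈ P, m ≤ ‖e₀ p.1 - e₀ p.2‖ := fun p hp => hqmin hp
  obtain ⟨e, hec, hedisj, heclose⟩ := happ (m / 4) (by linarith)
  obtain ⟨h, hhc, hhe⟩ := (hlog.prod hlog) (fun p : X × X => e p.1 - e₀ p.2) (by fun_prop)
    (fun p => sub_ne_zero.2 (hedisj _ _))
  refine ⟨fun p => (h p - h p.swap).im, ?_, ?_, ?_⟩
  · exact Complex.continuous_im.comp (hhc.sub (hhc.comp continuous_swap))
  · intro p
    simp
  · rintro ⟨x, y⟩ hp h0
    simp only [Prod.swap_prod_mk] at h0
    have hexp : Complex.exp (h (x, y) - h (y, x)) = (e x - e₀ y) / (e y - e₀ x) := by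
      rw [Complex.exp_sub, hhe, hhe]
    have hreal : 0 < (Complex.exp (h (x, y) - h (y, x))).re := by
      rw [Complex.exp_re, h0, Real.cos_zero, mul_one]
      exact Real.exp_pos _
    have hmp := hmin (x, y) hp
    simp only at hmp
    set u := e₀ x - e₀ y with hu
    have h1 : ‖e x - e₀ x‖ < m / 4 := heclose x
    have h2 : ‖e y - e₀ y‖ < m / 4 := heclose y
    have hbne : e y - e₀ x ≠ 0 := sub_ne_zero.2 (hedisj _ _)
    -- the real part of the quotient is negative
    have hre : (((e x - e₀ y) / (e y - e₀ x))).re < 0 := by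
      have hz : (e x - e₀ y) / (e y - e₀ x) =
          ((e x - e₀ y) * (starRingEnd ℂ) (e y - e₀ x)) / (Complex.normSq (e y - e₀ x) : ℂ) := by
        rw [div_eq_div_iff hbne, Complex.normSq_eq_conj_mul_self]
        · ring
        · rw [Complex.normSq_eq_conj_mul_self]
          exact mul_ne_zero ((map_ne_zero (starRingEnd ℂ)).2 hbne) hbne
      rw [hz, Complex.div_ofReal_re]
      apply div_neg_of_neg_of_pos _ (Complex.normSq_pos.2 hbne)
      have hα : e x - e₀ y = u + (e x - e₀ x) := by rw [hu]; ring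
      have hβ : e y - e₀ x = - u + (e y - e₀ y) := by rw [hu]; ring
      rw [hα, hβ]
      set α := e x - e₀ x
      set β := e y - e₀ y
      have hexpand : ((u + α) * (starRingEnd ℂ) (-u + β)).re =
          - ‖u‖ ^ 2 + (u * (starRingEnd ℂ) β).re - (α * (starRingEnd ℂ) u).re
            + (α * (starRingEnd ℂ) β).re := by
        have hu2 : ‖u‖ ^ 2 = (u * (starRingEnd ℂ) u).re := by
          rw [Complex.mul_conj, Complex.ofReal_re, Complex.normSq_eq_norm_sq]
        rw [hu2]
        simp only [map_add, map_neg]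
        rw [show (u + α) * (-(starRingEnd ℂ) u + (starRingEnd ℂ) β) =
          -(u * (starRingEnd ℂ) u) + u * (starRingEnd ℂ) β - α * (starRingEnd ℂ) u
            + α * (starRingEnd ℂ) β by ring]
        simp only [Complex.add_re, Complex.sub_re, Complex.neg_re]
      rw [hexpand]
      have b1 : (u * (starRingEnd ℂ) β).re ≤ ‖u‖ * ‖β‖ := by
        calc (u * (starRingEnd ℂ) β).re ≤ ‖u * (starRingEnd ℂ) β‖ := Complex.re_le_norm _
          _ = ‖u‖ * ‖β‖ := by rw [norm_mul, RCLike.norm_conj]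
      have b2 : -(α * (starRingEnd ℂ) u).re ≤ ‖α‖ * ‖u‖ := by
        calc -(α * (starRingEnd ℂ) u).re ≤ |(α * (starRingEnd ℂ) u).re| := neg_le_abs _
          _ ≤ ‖α * (starRingEnd ℂ) u‖ := Complex.abs_re_le_norm _
          _ = ‖α‖ * ‖u‖ := by rw [norm_mul, RCLike.norm_conj]
      have b3 : (α * (starRingEnd ℂ) β).re ≤ ‖α‖ * ‖β‖ := by
        calc (α * (starRingEnd ℂ) β).re ≤ ‖α * (starRingEnd ℂ) β‖ := Complex.re_le_norm _
          _ = ‖α‖ * ‖β‖ := by rw [norm_mul, RCLike.norm_conj]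
      have n1 := norm_nonneg α
      have n2 := norm_nonneg β
      have c1 : ‖u‖ * ‖β‖ ≤ ‖u‖ * (‖u‖ / 4) := by
        apply mul_le_mul_of_nonneg_left _ (norm_nonneg _)
        linarith
      have c2 : ‖α‖ * ‖u‖ ≤ (‖u‖ / 4) * ‖u‖ := by
        apply mul_le_mul_of_nonneg_right _ (norm_nonneg _)
        linarith
      have c3 : ‖α‖ * ‖β‖ ≤ (‖u‖ / 4) * (‖u‖ / 4) := by
        apply mul_le_mul _ _ n2 (by linarith)
        · linarith
        · linarith
      have hupos : 0 < ‖u‖ := lt_of_lt_of_le hm0 hmp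
      nlinarith
    rw [hexp] at hreal
    linarith

/-- an uncountable subset of a second countable space has an accumulation point in itself -/
theorem exists_accumulation {X : Type*} [TopologicalSpace X] [SecondCountableTopology X]
    (W : Set X) (hW : ¬ W.Countable) :
    ∃ w ∈ W, ∀ N ∈ 𝓝 w, ∃ v ∈ W, v ≠ w ∧ v ∈ N := by
  by_contra hcon
  push Not at hcon
  apply hW
  have hdisc : DiscreteTopology W := by
    rw [discreteTopology_iff_isOpen_singleton]
    rintro ⟨w, hw⟩
    obtain ⟨N, hN, hNw⟩ := hcon w hw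
    obtain ⟨O, hON, hO, hwO⟩ := mem_nhds_iff.1 hN
    refine ⟨O, hO, ?_⟩
    ext ⟨v, hv⟩
    simp only [mem_preimage, mem_singleton_iff, Subtype.mk.injEq]
    constructor
    · intro hvO
      by_contra hne
      exact hNw v hv hne (hON hvO)
    · rintro rfl
      exact hwO
  have : Countable W := TopologicalSpace.separableSpace_iff_countable.1 inferInstance
  exact Set.countable_coe_iff.1 this

/-- Fine open covers with acyclic nerve give logarithms. -/
theorem hasLog_of_treeLike {M : Set (EuclideanSpace ℝ (Fin 2))} (hM : IsCompact M)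
    (hconn : IsPreconnected M)
    (htree : ∀ ε : ℝ, 0 < ε → ∃ n : ℕ, ∃ U : Fin n → Set (EuclideanSpace ℝ (Fin 2)),
          (∀ i, IsOpen (U i)) ∧ M ⊆ ⋃ i, U i ∧
          (∀ i, ∀ x ∈ U i ∩ M, ∀ y ∈ U i ∩ M, dist x y < ε) ∧
          (SimpleGraph.fromRel (fun i j => (U i ∩ U j ∩ M).Nonempty)).IsAcyclic) :
    HasLog M := by
  intro g hg hg0
  have hcs : CompactSpace M := isCompact_iff_compactSpace.1 hM
  have hps : PreconnectedSpace M := isPreconnected_iff_preconnectedSpace.1 hconn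
  by_cases hne : Nonempty M
  swap
  · refine ⟨fun _ => 0, continuous_const, fun x => (hne ⟨x⟩).elim⟩
  obtain ⟨q, -, hq⟩ := isCompact_univ.exists_isMinOn (univ_nonempty (α := M))
    (f := fun x => ‖g x‖) (hg.norm.continuousOn)
  have hc0 : 0 < ‖g q‖ := norm_pos_iff.2 (hg0 q)
  have hcmin : ∀ x, ‖g q‖ ≤ ‖g x‖ := fun x => hq (mem_univ x)
  have hunif := CompactSpace.uniformContinuous_of_continuous hg
  rw [Metric.uniformContinuous_iff] at hunif
  obtain ⟨ε, hε, hεg⟩ := hunif (‖g q‖ / 2) (by linarith)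
  obtain ⟨n, U, hU, hcov, hmesh, hac⟩ := htree ε hε
  refine exists_log_of_cover g hg hg0 (fun i => (Subtype.val ⁻¹' (U i) : Set M))
    (fun i => (hU i).preimage continuous_subtype_val) ?_ ?_ ?_
  · intro x
    obtain ⟨i, hi⟩ := mem_iUnion.1 (hcov x.2)
    exact ⟨i, hi⟩
  · intro i x hx y hy
    have hd : dist x y < ε := hmesh i x ⟨hx, x.2⟩ y ⟨hy, y.2⟩
    have h1 := hεg hd
    rw [dist_eq_norm] at h1
    have hy0 : 0 < ‖g y‖ := norm_pos_iff.2 (hg0 y)
    have : g x / g y - 1 = (g x - g y) / g y := by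
      rw [sub_div, div_self (hg0 y)]
    rw [this, norm_div, div_lt_iff₀ hy0]
    have := hcmin y
    linarith
  · have : (fun i j => ((Subtype.val ⁻¹' (U i) : Set M) ∩ (Subtype.val ⁻¹' (U j) : Set M)).Nonempty)
        = (fun i j => (U i ∩ U j ∩ M).Nonempty) := by
      funext i j
      apply propext
      constructor
      · rintro ⟨x, hx1, hx2⟩
        exact ⟨x.1, ⟨hx1, hx2⟩, x.2⟩
      · rintro ⟨x, ⟨hx1, hx2⟩, hxM⟩
        exact ⟨⟨x, hxM⟩, hx1, hx2⟩
    rw [this]
    exact hac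

end Helper648.PC
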